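import Mathlib

set_option autoImplicit false

namespace Pool.Agent.Results.MP_f88521_co.DoubleStar

open SimpleGraph Finset

/-- the trees on `n` vertices (labelled by `Fin n`) of diameter at most `d` -/
def tau (n d : ℕ) : Set (SimpleGraph (Fin n)) := {T | T.IsTree ∧ ∀ u v, T.dist u v ≤ d}

/-- every colouring of the edges of the complete graph on `N` vertices with two colours contains a
monochromatic copy of some member of the family `𝓕` -/
def Arrows {n : ℕ} (𝓕 : Set (SimpleGraph (Fin n))) (N : ℕ) : Prop :=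
  ∀ c : Sym2 (Fin N) → Bool, ∃ b : Bool, ∃ T ∈ 𝓕, ∃ f : Fin n ↪ Fin N,
    ∀ i j, T.Adj i j → c s(f i, f j) = b

/-- `R(𝓕, 2) = R` -/
def IsRamsey {n : ℕ} (𝓕 : Set (SimpleGraph (Fin n))) (R : ℕ) : Prop :=
  IsLeast {N | Arrows 𝓕 N} R

/-! ### Trees of diameter at most three -/

section tree

variable {V : Type*} {T : SimpleGraph V}

theorem dist_add (hT : T.IsTree) {a b z y : V} (hab : T.Adj a b)
    (hz : T.dist z b = T.dist z a + 1) (hy : T.dist y a = T.dist y b + 1) :
    T.dist z y = T.dist z a + 1 + T.dist b y := by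
  classical
  obtain ⟨P, hP, hPl⟩ := hT.connected.exists_path_of_dist z a
  obtain ⟨Q, hQ, hQl⟩ := hT.connected.exists_path_of_dist b y
  have hPx : ∀ x ∈ P.support, T.dist x a + 1 ≤ T.dist x b := by
    intro x hx
    have h1 : (P.takeUntil x hx).length + (P.dropUntil x hx).length = P.length := by
      rw [← Walk.length_append, Walk.take_spec]
    have h2 := dist_le (P.takeUntil x hx)
    have h3 := dist_le (P.dropUntil x hx)
    have h4 : T.dist z b ≤ T.dist z x + T.dist x b := hT.connected.dist_triangle
    omega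
  have hQx : ∀ x ∈ Q.support, T.dist x b + 1 ≤ T.dist x a := by
    intro x hx
    have h1 : (Q.takeUntil x hx).length + (Q.dropUntil x hx).length = Q.length := by
      rw [← Walk.length_append, Walk.take_spec]
    have h2 := dist_le (Q.takeUntil x hx)
    have h3 := dist_le (Q.dropUntil x hx)
    have h4 : T.dist y a ≤ T.dist y x + T.dist x a := hT.connected.dist_triangle
    rw [T.dist_comm (u := b)] at h2
    rw [T.dist_comm (u := x)] at h3
    rw [T.dist_comm (u := b)] at hQl
    omega
  have hdisj : ∀ x ∈ P.support, x ∉ Q.support := by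
    intro x hx hx'
    have := hPx x hx
    have := hQx x hx'
    omega
  have hpath : (P.append (Walk.cons hab Q)).IsPath := by
    rw [Walk.isPath_def, Walk.support_append, Walk.support_cons, List.tail_cons]
    refine List.nodup_append.mpr ⟨hP.support_nodup, hQ.support_nodup, ?_⟩
    intro x hx y' hy' hxy
    subst hxy
    exact hdisj x hx hy'
  obtain ⟨S, hS, hSl⟩ := hT.connected.exists_path_of_dist z y
  have huniq : (P.append (Walk.cons hab Q)) = S := by
    have := (hT.isAcyclic.subsingleton_path z y).elim ⟨_, hpath⟩ ⟨S, hS⟩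
    exact congrArg Subtype.val this
  rw [← hSl, ← huniq, Walk.length_append, Walk.length_cons, hPl, hQl]
  ring

/-- a tree of diameter at most three has a dominating edge -/
theorem dominating (hT : T.IsTree) (hd : ∀ u v, T.dist u v ≤ 3) {u v : V} (huv : T.Adj u v) :
    ∃ a b, T.Adj a b ∧ ∀ w, w = a ∨ w = b ∨ T.Adj a w ∨ T.Adj b w := by
  classical
  -- it suffices to treat a vertex on the side of `u`
  have key : ∀ u v w : V, T.Adj u v → T.dist w v = T.dist w u + 1 → 2 ≤ T.dist w u →
      ∃ a b, T.Adj a b ∧ ∀ w, w = a ∨ w = b ∨ T.Adj a w ∨ T.Adj b w := by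
    intro u v w huv h1 h2
    have hwv := hd w v
    have hwu : T.dist w u = 2 := by omega
    obtain ⟨P, hP, hPl⟩ := hT.connected.exists_path_of_dist w u
    rw [hwu] at hPl
    obtain ⟨u', hwu', hu'u⟩ : ∃ u', T.Adj w u' ∧ T.Adj u' u := by
      cases P with
      | nil => simp at hPl
      | cons h p =>
        cases p with
        | nil => simp at hPl
        | cons h' p' =>
          cases p' with
          | nil => exact ⟨_, h, h'⟩
          | cons h'' p'' => simp at hPl
    have hdwu' : T.dist w u' = 1 := dist_eq_one_iff_adj.mpr hwu'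
    have hvu : T.dist v u = 1 := dist_eq_one_iff_adj.mpr huv.symm
    refine ⟨u, u', hu'u.symm, fun z => ?_⟩
    by_contra hz
    push Not at hz
    obtain ⟨hzu, hzu', hzau, hzau'⟩ := hz
    have hz0 : T.dist z u ≠ 0 := fun h => hzu ((hT.connected.dist_eq_zero_iff).mp h)
    have hz1 : T.dist z u ≠ 1 := fun h => hzau (dist_eq_one_iff_adj.mp h).symm
    have hz0' : T.dist z u' ≠ 0 := fun h => hzu' ((hT.connected.dist_eq_zero_iff).mp h)
    have hz1' : T.dist z u' ≠ 1 := fun h => hzau' (dist_eq_one_iff_adj.mp h).symm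
    rcases hT.dist_eq_dist_add_one_of_adj z hu'u with h | h
    · -- `z` on the side of `u`
      have h3 := dist_add hT (a := u) (b := u') (z := z) (y := w) hu'u.symm h (by omega)
      have h4 := hd z w
      rw [T.dist_comm (u := u')] at h3
      omega
    · -- `z` on the side of `u'`
      have hv : T.dist v u' = T.dist v u + 1 := by
        rcases hT.dist_eq_dist_add_one_of_adj v hu'u with h' | h'
        · exact h'
        · exfalso
          have h5 : T.dist v u' = 0 := by omega
          have h6 := (hT.connected.dist_eq_zero_iff).mp h5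
          rw [← h6] at hdwu'
          omega
      have h3 := dist_add hT (a := u') (b := u) (z := z) (y := v) hu'u h hv
      have h4 := hd z v
      rw [T.dist_comm (u := u)] at h3
      omega
  by_cases hdom : ∀ w, w = u ∨ w = v ∨ T.Adj u w ∨ T.Adj v w
  · exact ⟨u, v, huv, hdom⟩
  · push Not at hdom
    obtain ⟨w, hwu, hwv, hwau, hwav⟩ := hdom
    have hz0 : T.dist w u ≠ 0 := fun h => hwu ((hT.connected.dist_eq_zero_iff).mp h)
    have hz1 : T.dist w u ≠ 1 := fun h => hwau (dist_eq_one_iff_adj.mp h).symm
    have hz0' : T.dist w v ≠ 0 := fun h => hwv ((hT.connected.dist_eq_zero_iff).mp h)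
    have hz1' : T.dist w v ≠ 1 := fun h => hwav (dist_eq_one_iff_adj.mp h).symm
    rcases hT.dist_eq_dist_add_one_of_adj w huv with h | h
    · exact key v u w huv.symm h (by omega)
    · exact key u v w huv h (by omega)

end tree

/-! ### Paley colourings -/

section paley

variable {K : Type} [Field K] [Fintype K] [DecidableEq K]

theorem sum_prod (h2 : ringChar K ≠ 2) {U W : K} (hUW : U ≠ W) :
    ∑ x : K, quadraticChar K (x - U) * quadraticChar K (x - W) = -1 := by
  have hne : quadraticChar K ≠ 1 := quadraticChar_ne_one h2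
  have hinv : (quadraticChar K)⁻¹ = quadraticChar K :=
    (quadraticChar_isQuadratic K).inv
  have hJ := jacobiSum_nontrivial_inv hne
  rw [hinv] at hJ
  have hd : W - U ≠ 0 := sub_ne_zero.mpr hUW.symm
  have hbij : ∑ x : K, quadraticChar K (x - U) * quadraticChar K (x - W) =
      ∑ y : K, quadraticChar K (-1) * (quadraticChar K y * quadraticChar K (1 - y)) := by
    refine (Fintype.sum_equiv ((Equiv.mulRight₀ (W - U) hd).trans (Equiv.addRight U)) _ _ ?_).symm
    intro y
    show _ = quadraticChar K (y * (W - U) + U - U) * quadraticChar K (y * (W - U) + U - W)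
    have e1 : y * (W - U) + U - U = y * (W - U) := by ring
    have e2 : y * (W - U) + U - W = -1 * ((1 - y) * (W - U)) := by ring
    have e3 : quadraticChar K (W - U) * quadraticChar K (W - U) = 1 := by
      rw [← pow_two]; exact quadraticChar_sq_one hd
    rw [e1, e2, map_mul, map_mul, map_mul]
    linear_combination -(quadraticChar K (-1) * quadraticChar K y * quadraticChar K (1 - y)) * e3
  rw [hbij, ← Finset.mul_sum]
  have hJ' : ∑ y : K, quadraticChar K y * quadraticChar K (1 - y) = -quadraticChar K (-1) := hJ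
  rw [hJ']
  have : quadraticChar K (-1) * quadraticChar K (-1) = 1 := by
    rw [← pow_two]; exact quadraticChar_sq_one (neg_ne_zero.mpr one_ne_zero)
  linarith

/-- the vertices joined to `U` and `W` in the colour different from the colour of `U W` -/
theorem card_off {t : ℕ} (hq : Fintype.card K = 4 * t + 1) {U W : K} (hUW : U ≠ W) :
    (univ.filter fun x : K => x ≠ U ∧ x ≠ W ∧
      quadraticChar K (x - U) = -quadraticChar K (U - W) ∧
      quadraticChar K (x - W) = -quadraticChar K (U - W)).card = t := by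
  have h2 : ringChar K ≠ 2 := by
    intro h
    have := FiniteField.even_card_of_char_two h
    omega
  have hneg : quadraticChar K (-1) = 1 := by
    rw [quadraticChar_one_iff_isSquare (neg_ne_zero.mpr one_ne_zero),
      FiniteField.isSquare_neg_one_iff, hq]
    omega
  set ε := quadraticChar K (U - W) with hε
  have hε2 : ε * ε = 1 := by
    rw [← pow_two]; exact quadraticChar_sq_one (sub_ne_zero.mpr hUW)
  have hεWU : quadraticChar K (W - U) = ε := by
    rw [← neg_sub, ← neg_one_mul, map_mul, hneg, one_mul]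
  have hsum0 : ∀ a : K, ∑ x : K, quadraticChar K (x - a) = 0 := by
    intro a
    rw [Fintype.sum_equiv (Equiv.subRight a) (fun x => quadraticChar K (x - a))
      (fun x => quadraticChar K x) (fun x => rfl)]
    exact MulChar.sum_eq_zero_of_ne_one (quadraticChar_ne_one h2)
  have htot : ∑ x : K, (1 - ε * quadraticChar K (x - U)) * (1 - ε * quadraticChar K (x - W)) =
      4 * t := by
    have e : ∀ x : K, (1 - ε * quadraticChar K (x - U)) * (1 - ε * quadraticChar K (x - W)) =
        1 - ε * quadraticChar K (x - U) - ε * quadraticChar K (x - W) +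
          quadraticChar K (x - U) * quadraticChar K (x - W) := by
      intro x
      linear_combination (quadraticChar K (x - U) * quadraticChar K (x - W)) * hε2
    rw [Finset.sum_congr rfl fun x _ => e x, Finset.sum_add_distrib, Finset.sum_sub_distrib,
      Finset.sum_sub_distrib, ← Finset.mul_sum, ← Finset.mul_sum, hsum0, hsum0,
      sum_prod h2 hUW]
    simp [hq]
  have hterm : ∀ x : K, (1 - ε * quadraticChar K (x - U)) * (1 - ε * quadraticChar K (x - W)) =
      if x ≠ U ∧ x ≠ W ∧ quadraticChar K (x - U) = -ε ∧ quadraticChar K (x - W) = -ε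
      then 4 else 0 := by
    intro x
    have hε' : ε = 1 ∨ ε = -1 := by
      have : (ε - 1) * (ε + 1) = 0 := by linear_combination hε2
      rcases mul_eq_zero.mp this with h | h
      · left; omega
      · right; omega
    by_cases hxU : x = U
    · subst hxU
      rw [if_neg (by simp)]
      rw [← hε]
      linear_combination (-(1 - ε * quadraticChar K (x - x))) * hε2
    by_cases hxW : x = W
    · subst hxW
      rw [if_neg (by simp), hεWU]
      linear_combination (-(1 - ε * quadraticChar K (x - x))) * hε2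
    have ha : quadraticChar K (x - U) = 1 ∨ quadraticChar K (x - U) = -1 :=
      quadraticChar_dichotomy (sub_ne_zero.mpr hxU)
    have hb : quadraticChar K (x - W) = 1 ∨ quadraticChar K (x - W) = -1 :=
      quadraticChar_dichotomy (sub_ne_zero.mpr hxW)
    rcases hε' with h | h <;> rcases ha with ha | ha <;> rcases hb with hb | hb <;>
      simp [h, ha, hb, hxU, hxW]
  rw [Finset.sum_congr rfl fun x _ => hterm x, ← Finset.sum_filter, Finset.sum_const,
    nsmul_eq_mul] at htot
  have : ((univ.filter fun x : K => x ≠ U ∧ x ≠ W ∧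
      quadraticChar K (x - U) = -ε ∧ quadraticChar K (x - W) = -ε).card : ℤ) = t := by
    linarith
  exact_mod_cast this

/-- the Paley colouring has no monochromatic tree of diameter at most three on `3 t + 2` vertices -/
theorem paley_bound {t : ℕ} (hq : Fintype.card K = 4 * t + 1) :
    ¬ Arrows (tau (3 * t + 2) 3) (4 * t + 1) := by
  intro h
  have e : Fin (4 * t + 1) ≃ K := (Fintype.equivFinOfCardEq hq).symm
  have hneg : quadraticChar K (-1) = 1 := by
    rw [quadraticChar_one_iff_isSquare (neg_ne_zero.mpr one_ne_zero),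
      FiniteField.isSquare_neg_one_iff, hq]
    omega
  have hsym : ∀ x y : K, quadraticChar K (x - y) = quadraticChar K (y - x) := by
    intro x y
    rw [← neg_sub, ← neg_one_mul, map_mul, hneg, one_mul]
  let c : Sym2 (Fin (4 * t + 1)) → Bool := Sym2.lift ⟨fun i j =>
    decide (quadraticChar K (e i - e j) = 1), fun i j => by
      show decide _ = decide _
      rw [hsym]⟩
  obtain ⟨b, T, ⟨hT, hd⟩, f, hf⟩ := h c
  have hc : ∀ i j, T.Adj i j → decide (quadraticChar K (e (f i) - e (f j)) = 1) = b :=
    fun i j hij => hf i j hij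
  -- an edge
  obtain ⟨u0, v0, huv0⟩ : ∃ u v, T.Adj u v := by
    have hne : (⟨0, by omega⟩ : Fin (3 * t + 2)) ≠ ⟨1, by omega⟩ := by
      intro h; simp at h
    have : Nontrivial (Fin (3 * t + 2)) := ⟨⟨_, _, hne⟩⟩
    obtain ⟨v, hv⟩ := hT.connected.preconnected.exists_adj_of_nontrivial ⟨0, by omega⟩
    exact ⟨_, v, hv⟩
  obtain ⟨u, v, huv, hdom⟩ := dominating hT hd huv0
  set U := e (f u) with hU
  set W := e (f v) with hW
  have hUW : U ≠ W := by
    intro hh
    exact huv.ne (f.injective (e.injective hh))
  have hcard := card_off hq hUW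
  set S := univ.filter fun x : K => x ≠ U ∧ x ≠ W ∧
      quadraticChar K (x - U) = -quadraticChar K (U - W) ∧
      quadraticChar K (x - W) = -quadraticChar K (U - W) with hS
  have himg : (univ.image fun i : Fin (3 * t + 2) => e (f i)).card = 3 * t + 2 := by
    rw [Finset.card_image_of_injective _ (fun i j hij => f.injective (e.injective hij)),
      Finset.card_univ, Fintype.card_fin]
  have hnz : ∀ x y : K, x ≠ y → quadraticChar K (x - y) = 1 ∨ quadraticChar K (x - y) = -1 :=
    fun x y hxy => quadraticChar_dichotomy (sub_ne_zero.mpr hxy)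
  have hdisj : Disjoint (univ.image fun i : Fin (3 * t + 2) => e (f i)) S := by
    rw [Finset.disjoint_left]
    intro x hx hxS
    obtain ⟨w, -, rfl⟩ := Finset.mem_image.mp hx
    obtain ⟨-, h1, h2, h3, h4⟩ := Finset.mem_filter.mp hxS
    have hwu : w ≠ u := fun h => h1 (by rw [h])
    have hwv : w ≠ v := fun h => h2 (by rw [h])
    have hb := hc u v huv
    have hUWd := hnz U W hUW
    rcases hdom w with h | h | h | h
    · exact hwu h
    · exact hwv h
    · have := hc u w h
      rw [hsym] at this
      rw [← hb] at this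
      change decide (quadraticChar K (e (f w) - U) = 1) = decide (quadraticChar K (U - W) = 1)
        at this
      rw [h3] at this
      rcases hUWd with h' | h' <;> rw [h'] at this <;> simp at this
    · have := hc v w h
      rw [hsym] at this
      rw [← hb] at this
      change decide (quadraticChar K (e (f w) - W) = 1) = decide (quadraticChar K (U - W) = 1)
        at this
      rw [h4] at this
      rcases hUWd with h' | h' <;> rw [h'] at this <;> simp at this
  have := Finset.card_union_of_disjoint hdisj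
  rw [himg, hcard] at this
  have h' := Finset.card_le_univ ((univ.image fun i : Fin (3 * t + 2) => e (f i)) ∪ S)
  rw [this, hq] at h'
  omega

end paley

/-- fewer vertices are worse -/
theorem Arrows.mono {n : ℕ} {𝓕 : Set (SimpleGraph (Fin n))} {N N' : ℕ} (h : Arrows 𝓕 N)
    (hN : N ≤ N') : Arrows 𝓕 N' := by
  intro c
  obtain ⟨b, T, hT, f, hf⟩ := h fun s => c (s.map (Fin.castLE hN))
  exact ⟨b, T, hT, f.trans (Fin.castLEEmb hN), fun i j hij => hf i j hij⟩

/-- Disproof of the formula `R(τ_{4k-r+1}(3), 2) = 5k - r`. -/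
theorem result :
    (¬ ∀ k r : ℕ, 1 ≤ k → 1 ≤ r → r ≤ 4 →
      IsRamsey (tau (4 * k - r + 1) 3) (5 * k - r)) ∧
    (¬ Arrows (tau 8 3) 9 ∧ ¬ IsRamsey (tau 8 3) 9) ∧
    (∀ (K : Type) [Field K] [Fintype K] (t : ℕ), Fintype.card K = 4 * t + 1 →
      ∀ N, N ≤ 4 * t + 1 → ¬ Arrows (tau (3 * t + 2) 3) N) ∧
    (∀ C : ℕ, ∃ k r : ℕ, C ≤ k ∧ 1 ≤ r ∧ r ≤ 4 ∧
      ∀ N, N ≤ 5 * k - r + C → ¬ Arrows (tau (4 * k - r + 1) 3) N) := by
  classical
  have hmain : ∀ (K : Type) [Field K] [Fintype K] (t : ℕ), Fintype.card K = 4 * t + 1 →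
      ∀ N, N ≤ 4 * t + 1 → ¬ Arrows (tau (3 * t + 2) 3) N := by
    intro K _ _ t hq N hN hA
    exact paley_bound hq (hA.mono hN)
  have h9 : ¬ Arrows (tau 8 3) 9 := by
    have : Fact (Nat.Prime 3) := ⟨Nat.prime_three⟩
    have : Finite (GaloisField 3 2) := Nat.finite_of_card_ne_zero (by
      rw [GaloisField.card 3 2 (by norm_num)]; norm_num)
    have := Fintype.ofFinite (GaloisField 3 2)
    have hc : Fintype.card (GaloisField 3 2) = 4 * 2 + 1 := by
      rw [Fintype.card_eq_nat_card, GaloisField.card 3 2 (by norm_num)]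
      norm_num
    exact hmain (GaloisField 3 2) 2 hc 9 le_rfl
  have h9' : ¬ IsRamsey (tau 8 3) 9 := fun h => h9 h.1
  refine ⟨fun h => h9' (h 2 1 (by norm_num) (by norm_num) (by norm_num)), ⟨h9, h9'⟩, hmain, ?_⟩
  intro C
  obtain ⟨p, hp, hgt, hmod⟩ := Nat.exists_prime_gt_modEq_one (k := 4) (16 * C + 16) (by norm_num)
  have : Fact p.Prime := ⟨hp⟩
  have hp1 : p % 4 = 1 := hmod
  obtain ⟨t, ht⟩ : ∃ t, p = 4 * t + 1 := ⟨p / 4, by omega⟩
  have hcard : Fintype.card (ZMod p) = 4 * t + 1 := by rw [ZMod.card, ht]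
  have hall := hmain (ZMod p) t hcard
  -- `3 t + 2 = 4 k - r + 1`
  obtain ⟨k, r, hr1, hr4, hkr⟩ : ∃ k r : ℕ, 1 ≤ r ∧ r ≤ 4 ∧ 3 * t + 1 + r = 4 * k := by
    refine ⟨(3 * t + 5) / 4, 4 - (3 * t + 1) % 4, ?_, ?_, ?_⟩ <;> omega
  refine ⟨k, r, by omega, hr1, hr4, fun N hN => ?_⟩
  have he : 4 * k - r + 1 = 3 * t + 2 := by omega
  rw [he]
  exact hall N (by omega)

end Pool.Agent.Results.MP_f88521_co.DoubleStar
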